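import Pool.Agent.D0H44.DM.Stm2
import Pool.Agent.H448R2.GC.X1

/-! Project DM (helper44), module 20 KF (helper65): the functional equation. -/

set_option autoImplicit false

namespace Pool.Agent.D0H65.DM

open Complex
open Pool.Agent.D0H44.DM

theorem t_KF : S_KF := by
  intro δ hδ0 hδ1
  obtain ⟨C, hC, hX⟩ := Pool.Agent.H448R2.GC.XX_upper (3 / 4)
  refine ⟨C, hC, fun t => ?_⟩
  set w : ℂ := 1 / 2 + δ - Complex.I * t with hw
  have hre : w.re = 1 / 2 + δ := by
    simp [hw]
  have him : w.im = -t := by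
    simp [hw]
  have hw1 : w ≠ 1 := by
    intro h
    have := congrArg Complex.re h
    rw [hre] at this
    simp at this
    linarith
  have h1 := Pool.Agent.H448R2.GC.zeta_fe w (by rw [hre]; linarith) hw1
  have h2 := hX w (by rw [hre]; linarith) (by rw [hre]; linarith)
  rw [hre, him, abs_neg, show (1 / 2 + δ - 1 / 2 : ℝ) = δ by ring] at h2
  have h3 : zs (-δ) t = riemannZeta (1 - w) := by
    unfold zs
    congr 1
    rw [hw]
    push_cast
    ring
  have h4 : ‖riemannZeta w‖ = ‖zs δ t‖ := by
    have h5 : w = (starRingEnd ℂ) (1 / 2 + (δ : ℂ) + Complex.I * t) := by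
      rw [hw]
      apply Complex.ext <;> simp
    unfold zs
    rw [h5, riemannZeta_conj, RCLike.norm_conj]
  rw [h3, h1, norm_mul, h4]
  exact mul_le_mul_of_nonneg_right h2 (norm_nonneg _)

end Pool.Agent.D0H65.DM
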