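import Pool.Agent.D0H44.DM.Stm2

/-! Project DM (helper44), module 22 ZD (helper65): moments of the derivative of zeta. -/

set_option autoImplicit false

namespace Pool.Agent.D0H65.DM

open MeasureTheory Set Filter
open Pool.Agent.D0H44.DM

theorem zl_cont : Continuous zl := by
  unfold zl
  rw [continuous_iff_continuousAt]
  intro t
  have h1 : DifferentiableAt ℂ riemannZeta (1 / 2 + Complex.I * t) := by
    apply differentiableAt_riemannZeta
    intro h
    have := congrArg Complex.re h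
    simp at this
  have h2 : ContinuousAt (fun t : ℝ => (1 / 2 + Complex.I * t : ℂ)) t := by
    fun_prop
  exact ContinuousAt.comp (f := fun t : ℝ => (1 / 2 + Complex.I * t : ℂ)) h1.continuousAt h2

theorem zl_even (t : ℝ) : ‖zl (-t)‖ = ‖zl t‖ := by
  unfold zl
  have h5 : (1 / 2 + Complex.I * ((-t : ℝ) : ℂ)) = (starRingEnd ℂ) (1 / 2 + Complex.I * (t : ℂ)) := by
    apply Complex.ext <;> simp
  rw [h5, riemannZeta_conj, RCLike.norm_conj]

/-- Gaussian integrability -/
theorem gauss_int (A : ℝ) : Integrable (fun x : ℝ => (1 + |x|) ^ A * Real.exp (-(x ^ 2 / 4))) := by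
  obtain ⟨n, hn⟩ := exists_nat_ge A
  have h1 : Integrable (fun x : ℝ => x ^ (n : ℝ) * Real.exp (-(1 / 4) * x ^ 2)) :=
    integrable_rpow_mul_exp_neg_mul_sq (by norm_num) (by
      have : (0 : ℝ) ≤ n := Nat.cast_nonneg n
      linarith)
  have h2 : Integrable (fun x : ℝ => Real.exp (-(1 / 4) * x ^ 2)) :=
    integrable_exp_neg_mul_sq (by norm_num)
  have h3 := (h2.add h1.norm).const_mul ((2 : ℝ) ^ n)
  refine h3.mono' ?_ ?_
  · apply Continuous.aestronglyMeasurable
    apply Continuous.mul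
    · apply Continuous.rpow_const (by fun_prop)
      intro x
      left
      positivity
    · fun_prop
  · filter_upwards with x
    have e0 : -(x ^ 2 / 4) = -(1 / 4) * x ^ 2 := by ring
    have e1 : (1 + |x|) ^ A ≤ (1 + |x|) ^ n := by
      rw [← Real.rpow_natCast]
      exact Real.rpow_le_rpow_of_exponent_le (by linarith [abs_nonneg x]) hn
    have e2 : (1 + |x|) ^ n ≤ 2 ^ n * (1 + |x| ^ n) := by
      rcases le_total |x| 1 with hx | hx
      · have g1 : (1 + |x|) ^ n ≤ 2 ^ n := pow_le_pow_left₀ (by positivity) (by linarith) n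
        have g2 : (0 : ℝ) ≤ 2 ^ n * |x| ^ n := by positivity
        nlinarith
      · have g1 : (1 + |x|) ^ n ≤ (2 * |x|) ^ n := pow_le_pow_left₀ (by positivity) (by linarith) n
        rw [mul_pow] at g1
        have g2 : (0 : ℝ) ≤ 2 ^ n := by positivity
        nlinarith
    have e3 : (0 : ℝ) < Real.exp (-(1 / 4) * x ^ 2) := Real.exp_pos _
    rw [e0, norm_mul, Real.norm_eq_abs, Real.norm_eq_abs, abs_of_pos e3,
      abs_of_nonneg (by positivity)]
    simp only [Pi.add_apply, norm_mul, Real.norm_eq_abs, abs_of_pos e3, Real.rpow_natCast, abs_pow]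
    calc (1 + |x|) ^ A * Real.exp (-(1 / 4) * x ^ 2)
        ≤ (2 ^ n * (1 + |x| ^ n)) * Real.exp (-(1 / 4) * x ^ 2) :=
          mul_le_mul_of_nonneg_right (e1.trans e2) e3.le
      _ = _ := by ring

theorem t_ZD : S_KP → S_ZD := by
  intro hKP m hm A hA hmom ε hε
  set p : ℕ := 2 * m with hp
  have hp1 : 1 ≤ p := by omega
  have hp0 : (0 : ℝ) < p := by exact_mod_cast hp1
  set A' : ℝ := A + ε / 2 with hA'
  have hA'1 : 1 ≤ A' := by linarith
  -- the parameter delta
  obtain ⟨δ, hδ0, hδ1, hδ2⟩ : ∃ δ : ℝ, 0 < δ ∧ δ ≤ 1 / 4 ∧ p * δ ≤ ε / 2 := by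
    refine ⟨min (1 / 4) (ε / (2 * p)), lt_min (by norm_num) (by positivity), min_le_left _ _, ?_⟩
    have h1 : min (1 / 4) (ε / (2 * p)) ≤ ε / (2 * p) := min_le_right _ _
    calc (p : ℝ) * min (1 / 4) (ε / (2 * p)) ≤ p * (ε / (2 * p)) :=
          mul_le_mul_of_nonneg_left h1 hp0.le
      _ = ε / 2 := by field_simp
  obtain ⟨C1, hC1, hK⟩ := hKP δ hδ0 hδ1 p hp1
  obtain ⟨C2, hC2⟩ := hmom (ε / 2) (by linarith)
  rw [← hA'] at hC2
  set h : ℝ → ℝ := fun t => ‖zl t‖ ^ p with hh
  have hcont : Continuous h := by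
    rw [hh]
    exact zl_cont.norm.pow p
  have hnn : ∀ t, 0 ≤ h t := fun t => by rw [hh]; positivity
  have hev : ∀ t, h (-t) = h t := fun t => by rw [hh]; simp only [zl_even]
  have hii : ∀ a b, IntervalIntegrable h volume a b := fun a b => hcont.intervalIntegrable a b
  set H : ℝ → ℝ := fun y => ∫ t in (0:ℝ)..y, h t with hH
  have hHc : Continuous H := intervalIntegral.continuous_primitive hii 0
  have hH0 : ∀ y, 0 ≤ y → 0 ≤ H y := fun y hy =>
    intervalIntegral.integral_nonneg hy fun t _ => hnn t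
  have hHm : ∀ y z, y ≤ z → H y ≤ H z := by
    intro y z hyz
    have h1 : H z - H y = ∫ t in y..z, h t := by
      rw [hH]
      exact intervalIntegral.integral_interval_sub_left (hii _ _) (hii _ _)
    have h2 : 0 ≤ ∫ t in y..z, h t := intervalIntegral.integral_nonneg hyz fun t _ => hnn t
    linarith
  have hC20 : 0 ≤ C2 := by
    have h1 := hC2 1 le_rfl
    rw [Real.one_rpow, mul_one] at h1
    exact (hH0 1 zero_le_one).trans h1
  have hHb0 : ∀ y, 0 ≤ y → H y ≤ C2 * (1 + y) ^ A' := by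
    intro y hy
    exact (hHm y (1 + y) (by linarith)).trans (hC2 (1 + y) (by linarith))
  have hHneg : ∀ y, H (-y) = -H y := by
    intro y
    have h1 := intervalIntegral.integral_comp_neg (a := 0) (b := y) h
    simp only [hev, neg_zero] at h1
    rw [hH]
    simp only
    rw [intervalIntegral.integral_symm, ← h1]
  have hHb : ∀ y, |H y| ≤ C2 * (1 + |y|) ^ A' := by
    intro y
    rcases le_total 0 y with hy | hy
    · rw [abs_of_nonneg (hH0 y hy), abs_of_nonneg hy]
      exact hHb0 y hy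
    · have h1 := hHb0 (-y) (by linarith)
      have h2 := hH0 (-y) (by linarith)
      have h3 := hHneg (-y)
      rw [neg_neg] at h3
      rw [h3, abs_neg, abs_of_nonneg h2, abs_of_nonpos hy]
      exact h1
  set G : ℝ := ∫ x : ℝ, (1 + |x|) ^ A' * Real.exp (-(x ^ 2 / 4)) with hG
  have hG0 : 0 ≤ G := integral_nonneg fun x => by positivity
  -- the integral of the convolution
  have hconv : ∀ T : ℝ, 1 ≤ T →
      IntervalIntegrable (fun t => ∫ x : ℝ, h (t + x) * Real.exp (-(x ^ 2 / 4))) volume 0 T ∧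
      ∫ t in (0:ℝ)..T, (∫ x : ℝ, h (t + x) * Real.exp (-(x ^ 2 / 4))) ≤
        2 * C2 * (1 + T) ^ A' * G := by
    intro T hT
    have hT0 : 0 ≤ T := by linarith
    set μ : Measure ℝ := volume.restrict (Ioc 0 T) with hμ
    let f : ℝ × ℝ → ℝ := fun z => h (z.1 + z.2) * Real.exp (-(z.2 ^ 2 / 4))
    have hfc : Continuous f := by
      apply Continuous.mul
      · exact hcont.comp (by fun_prop)
      · fun_prop
    have hfn : ∀ z, 0 ≤ f z := fun z => mul_nonneg (hnn _) (Real.exp_pos _).le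
    have hin : ∀ x : ℝ, ∫ t, f (t, x) ∂μ = (H (T + x) - H x) * Real.exp (-(x ^ 2 / 4)) := by
      intro x
      rw [hμ, ← intervalIntegral.integral_of_le hT0]
      change ∫ t in (0:ℝ)..T, h (t + x) * Real.exp (-(x ^ 2 / 4)) = _
      rw [intervalIntegral.integral_mul_const, intervalIntegral.integral_comp_add_right, zero_add]
      congr 1
      rw [hH]
      exact (intervalIntegral.integral_interval_sub_left (hii _ _) (hii _ _)).symm
    have hbd : ∀ x : ℝ, |(H (T + x) - H x) * Real.exp (-(x ^ 2 / 4))| ≤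
        2 * C2 * (1 + T) ^ A' * ((1 + |x|) ^ A' * Real.exp (-(x ^ 2 / 4))) := by
      intro x
      rw [abs_mul, abs_of_pos (Real.exp_pos _)]
      have g1 : |H (T + x) - H x| ≤ |H (T + x)| + |H x| := abs_sub _ _
      have g2 := hHb (T + x)
      have g3 := hHb x
      have g4 : (1 + |T + x|) ^ A' ≤ (1 + T) ^ A' * (1 + |x|) ^ A' := by
        rw [← Real.mul_rpow (by linarith) (by positivity)]
        apply Real.rpow_le_rpow (by positivity) _ (by linarith)
        have := abs_add_le T x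
        rw [abs_of_nonneg hT0] at this
        have hx := abs_nonneg x
        nlinarith
      have g5 : (1 + |x|) ^ A' ≤ (1 + T) ^ A' * (1 + |x|) ^ A' := by
        rw [← Real.mul_rpow (by linarith) (by positivity)]
        apply Real.rpow_le_rpow (by positivity) _ (by linarith)
        have hx := abs_nonneg x
        nlinarith
      have g6 : |H (T + x) - H x| ≤ 2 * C2 * (1 + T) ^ A' * (1 + |x|) ^ A' := by
        have k1 := mul_le_mul_of_nonneg_left g4 hC20
        have k2 := mul_le_mul_of_nonneg_left g5 hC20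
        linarith
      calc |H (T + x) - H x| * Real.exp (-(x ^ 2 / 4))
          ≤ (2 * C2 * (1 + T) ^ A' * (1 + |x|) ^ A') * Real.exp (-(x ^ 2 / 4)) :=
            mul_le_mul_of_nonneg_right g6 (Real.exp_pos _).le
        _ = _ := by ring
    have hint2 : Integrable (fun x : ℝ => (H (T + x) - H x) * Real.exp (-(x ^ 2 / 4))) := by
      refine ((gauss_int A').const_mul (2 * C2 * (1 + T) ^ A')).mono' ?_ ?_
      · apply Continuous.aestronglyMeasurable
        apply Continuous.mul
        · exact (hHc.comp (by fun_prop)).sub hHc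
        · fun_prop
      · filter_upwards with x
        exact hbd x
    have hfint : Integrable f (μ.prod volume) := by
      rw [integrable_prod_iff' hfc.aestronglyMeasurable]
      refine ⟨?_, ?_⟩
      · filter_upwards with x
        rw [hμ]
        have : Continuous fun t => f (t, x) := hfc.comp (by fun_prop)
        exact (this.integrableOn_Icc (a := 0) (b := T)).mono_set Ioc_subset_Icc_self
      · have e1 : (fun x : ℝ => ∫ t, ‖f (t, x)‖ ∂μ) =
            fun x : ℝ => (H (T + x) - H x) * Real.exp (-(x ^ 2 / 4)) := by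
          funext x
          rw [← hin x]
          refine integral_congr_ae ?_
          filter_upwards with t
          rw [Real.norm_eq_abs, abs_of_nonneg (hfn _)]
        rw [e1]
        exact hint2
    refine ⟨?_, ?_⟩
    · rw [intervalIntegrable_iff_integrableOn_Ioc_of_le hT0]
      exact hfint.integral_prod_left
    · rw [intervalIntegral.integral_of_le hT0]
      have e2 : ∫ t in Ioc 0 T, ∫ x : ℝ, h (t + x) * Real.exp (-(x ^ 2 / 4)) =
          ∫ x : ℝ, ∫ t, f (t, x) ∂μ := by
        exact integral_integral_swap (f := fun t x => f (t, x)) hfint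
      rw [e2]
      simp only [hin]
      calc ∫ x : ℝ, (H (T + x) - H x) * Real.exp (-(x ^ 2 / 4))
          ≤ ∫ x : ℝ, 2 * C2 * (1 + T) ^ A' * ((1 + |x|) ^ A' * Real.exp (-(x ^ 2 / 4))) := by
            refine integral_mono hint2 ((gauss_int A').const_mul _) ?_
            intro x
            exact (le_abs_self _).trans (hbd x)
        _ = 2 * C2 * (1 + T) ^ A' * G := by rw [integral_const_mul]
  -- conclusion
  refine ⟨C1 * (2 : ℝ) ^ (p * δ) * (1 + 2 * C2 * 2 ^ A' * G), fun T hT => ?_⟩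
  have hT0 : 0 ≤ T := by linarith
  have hTp : 0 < T := by linarith
  obtain ⟨hKi, hKb⟩ := hconv T hT
  have hpδ : 0 ≤ (p : ℝ) * δ := by positivity
  have hrhs : 0 ≤ C1 * (2 : ℝ) ^ (p * δ) * (1 + 2 * C2 * 2 ^ A' * G) * T ^ (A + ε) := by
    positivity
  by_cases hzi : IntervalIntegrable (fun t => ‖zd t‖ ^ p) volume 0 T
  swap
  · rw [intervalIntegral.integral_undef hzi]
    exact hrhs
  have hmaj : IntervalIntegrable (fun t => C1 * (1 + T) ^ (p * δ) *
      (1 + ∫ x : ℝ, h (t + x) * Real.exp (-(x ^ 2 / 4)))) volume 0 T :=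
    ((intervalIntegrable_const (c := (1 : ℝ))).add hKi).const_mul _
  have hstep : ∫ t in (0:ℝ)..T, ‖zd t‖ ^ p ≤ ∫ t in (0:ℝ)..T, C1 * (1 + T) ^ (p * δ) *
      (1 + ∫ x : ℝ, h (t + x) * Real.exp (-(x ^ 2 / 4))) := by
    refine intervalIntegral.integral_mono_on hT0 hzi hmaj ?_
    intro t ht
    refine (hK t).2.trans ?_
    have k1 : (0 : ℝ) ≤ ∫ x : ℝ, ‖zl (t + x)‖ ^ p * Real.exp (-(x ^ 2 / 4)) :=
      integral_nonneg fun x => by positivity
    apply mul_le_mul_of_nonneg_right _ (by linarith)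
    apply mul_le_mul_of_nonneg_left _ hC1.le
    apply Real.rpow_le_rpow (by positivity) _ hpδ
    rw [abs_of_nonneg ht.1]
    linarith [ht.2]
  refine hstep.trans ?_
  rw [intervalIntegral.integral_const_mul, intervalIntegral.integral_add
    (intervalIntegrable_const) hKi, intervalIntegral.integral_const, sub_zero, smul_eq_mul, mul_one]
  have k2 : (1 + T) ^ (p * δ) ≤ 2 ^ (p * δ) * T ^ (p * δ) := by
    rw [← Real.mul_rpow (by norm_num) hT0]
    exact Real.rpow_le_rpow (by linarith) (by linarith) hpδ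
  have k3 : (1 + T) ^ A' ≤ 2 ^ A' * T ^ A' := by
    rw [← Real.mul_rpow (by norm_num) hT0]
    exact Real.rpow_le_rpow (by linarith) (by linarith) (by linarith)
  have k4 : T ≤ T ^ A' := by
    calc T = T ^ (1 : ℝ) := (Real.rpow_one T).symm
      _ ≤ T ^ A' := Real.rpow_le_rpow_of_exponent_le hT hA'1
  have k5 : T + ∫ t in (0:ℝ)..T, (∫ x : ℝ, h (t + x) * Real.exp (-(x ^ 2 / 4))) ≤
      (1 + 2 * C2 * 2 ^ A' * G) * T ^ A' := by
    have k6 : 2 * C2 * (1 + T) ^ A' * G ≤ 2 * C2 * (2 ^ A' * T ^ A') * G := by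
      apply mul_le_mul_of_nonneg_right _ hG0
      apply mul_le_mul_of_nonneg_left k3
      linarith
    nlinarith
  have k7 : (0 : ℝ) ≤ T + ∫ t in (0:ℝ)..T, (∫ x : ℝ, h (t + x) * Real.exp (-(x ^ 2 / 4))) := by
    have : (0 : ℝ) ≤ ∫ t in (0:ℝ)..T, (∫ x : ℝ, h (t + x) * Real.exp (-(x ^ 2 / 4))) :=
      intervalIntegral.integral_nonneg hT0 fun t _ =>
        integral_nonneg fun x => mul_nonneg (hnn _) (Real.exp_pos _).le
    linarith
  calc C1 * (1 + T) ^ (p * δ) * (T + ∫ t in (0:ℝ)..T,
        (∫ x : ℝ, h (t + x) * Real.exp (-(x ^ 2 / 4))))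
      ≤ C1 * (2 ^ (p * δ) * T ^ (p * δ)) * ((1 + 2 * C2 * 2 ^ A' * G) * T ^ A') := by
        apply mul_le_mul _ k5 k7 (by positivity)
        exact mul_le_mul_of_nonneg_left k2 hC1.le
    _ = C1 * 2 ^ (p * δ) * (1 + 2 * C2 * 2 ^ A' * G) * (T ^ (p * δ) * T ^ A') := by ring
    _ ≤ C1 * 2 ^ (p * δ) * (1 + 2 * C2 * 2 ^ A' * G) * T ^ (A + ε) := by
        apply mul_le_mul_of_nonneg_left _ (by positivity)
        rw [← Real.rpow_add hTp]
        apply Real.rpow_le_rpow_of_exponent_le hT
        rw [hA']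
        linarith

end Pool.Agent.D0H65.DM
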